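import Mathlib
import Pool.Agent.KGD.Final

set_option autoImplicit false

namespace Pool.Agent.Results.MP_daaace_co.ColourBound

universe u

/-- Over an integral domain a monochromatic quantum graph with `N ≥ 6` vertices has at most
`(2 N - 2) / 3` colours. -/
theorem result : ∀ (R : Type u) [CommRing R] [IsDomain R] (N D : ℕ), 6 ≤ N → 2 * N ≤ 3 * D + 1 →
    ∀ (W : Fin N → Fin N → Fin D → Fin D → R),
      ¬ ∀ ι : Fin N → Fin D,
          (∑ σ ∈ (Finset.univ.filter
                (fun σ : Equiv.Perm (Fin N) => (∀ v, σ (σ v) = v) ∧ ∀ v, σ v ≠ v)),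
              ∏ v ∈ Finset.univ.filter (fun v : Fin N => v < σ v),
                W v (σ v) (ι v) (ι (σ v)))
            = if (∀ u v, ι u = ι v) then (1 : R) else 0 := by
  intro R _ _ N D hN hD W H
  have := Pool.Agent.KGD.main hN W H
  omega

end Pool.Agent.Results.MP_daaace_co.ColourBound
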