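import Mathlib
import Pool.Agent.Helper72.KG1.Main

set_option autoImplicit false

namespace Pool.Agent.Results.MP_daaace_co.NoBicolouredEdges

universe u

/-- Over an integral domain there is no monochromatic quantum graph with at least six vertices and
at least three colours which has no bicoloured edges and one colour `c` with the following
property: for some perfect matching `μ` (a fixed-point-free involution) and every union `S` of
edges of `μ`, the weighted sum of the perfect matchings of colour `c` of the set `S` is not zero.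
The weights of the other colours are arbitrary. -/
theorem result : ∀ (R : Type u) [CommRing R] [IsDomain R] (N D : ℕ), 6 ≤ N → 3 ≤ D →
    ∀ (W : Fin N → Fin N → Fin D → Fin D → R),
      (∀ u v i j, u < v → i ≠ j → W u v i j = 0) →
      ∀ (c : Fin D) (μ : Equiv.Perm (Fin N)), (∀ v, μ (μ v) = v) → (∀ v, μ v ≠ v) →
      (∀ S : Finset (Fin N), (∀ v ∈ S, μ v ∈ S) →
        (∑ σ ∈ Finset.univ.filter (fun σ : Equiv.Perm (Fin N) =>
              (∀ v, σ (σ v) = v) ∧ ∀ v, (σ v ≠ v ↔ v ∈ S)),
            ∏ v ∈ Finset.univ.filter (fun v : Fin N => v < σ v), W v (σ v) c c) ≠ 0) →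
      ¬ ∀ ι : Fin N → Fin D,
          (∑ σ ∈ (Finset.univ.filter
                (fun σ : Equiv.Perm (Fin N) => (∀ v, σ (σ v) = v) ∧ ∀ v, σ v ≠ v)),
              ∏ v ∈ Finset.univ.filter (fun v : Fin N => v < σ v),
                W v (σ v) (ι v) (ι (σ v)))
            = if (∀ u v, ι u = ι v) then (1 : R) else 0 := by
  intro R _ _ N D hN hD W hW c μ hμ hμn hc H
  exact Pool.Agent.Helper72.KG1.main hN hD W hW c μ hμ hμn hc H

end Pool.Agent.Results.MP_daaace_co.NoBicolouredEdges
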