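import Mathlib
import Pool.Agent.Helper72.KGP.Final

set_option autoImplicit false

namespace Pool.Agent.Results.MP_daaace_co.PfaffianSupport

open Pool.Agent.Helper72.KGP

universe u

/-- There is no monochromatic quantum graph with at least six vertices and at least three colours,
over any nontrivial commutative ring, whose bicoloured edges can be rescaled by factors `a` in such
a way that, for every vertex colouring `ι`, all perfect matchings `σ` of nonzero weight have the
same value `t ι` (a unit) of `(-1) ^ (number of crossings of σ)` times the product of the factors.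
(With factors `1` and `-1` not depending on the colours this is a Pfaffian orientation of the
underlying simple graph.) -/
theorem result : ∀ (R : Type u) [CommRing R] [Nontrivial R] (N D : ℕ), 6 ≤ N → 3 ≤ D →
    ∀ (W a : Fin N → Fin N → Fin D → Fin D → R) (t : (Fin N → Fin D) → Rˣ),
      (∀ (ι : Fin N → Fin D) (σ : Equiv.Perm (Fin N)),
        (∀ v, σ (σ v) = v) → (∀ v, σ v ≠ v) →
        (∏ v ∈ Finset.univ.filter (fun v : Fin N => v < σ v),
          W v (σ v) (ι v) (ι (σ v))) ≠ 0 →
        (-1) ^ (Finset.univ.filter (fun p : Fin N × Fin N =>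
            p.1 < p.2 ∧ p.2 < σ p.1 ∧ σ p.1 < σ p.2)).card *
          (∏ v ∈ Finset.univ.filter (fun v : Fin N => v < σ v),
            a v (σ v) (ι v) (ι (σ v))) = (t ι : R)) →
      ¬ ∀ ι : Fin N → Fin D,
          (∑ σ ∈ (Finset.univ.filter
                (fun σ : Equiv.Perm (Fin N) => (∀ v, σ (σ v) = v) ∧ ∀ v, σ v ≠ v)),
              ∏ v ∈ Finset.univ.filter (fun v : Fin N => v < σ v),
                W v (σ v) (ι v) (ι (σ v)))
            = if (∀ u v, ι u = ι v) then (1 : R) else 0 := by
  intro R _ _ N D hN hD W a t hP hW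
  obtain ⟨M, hM⟩ := Ideal.exists_maximal R
  let K := R ⧸ M
  let _ : Field K := Ideal.Quotient.field M
  let L := AlgebraicClosure K
  let φ : R →+* L := (algebraMap K L).comp (Ideal.Quotient.mk M)
  have : NeZero N := ⟨by omega⟩
  let c : Fin 3 → Fin D := Fin.castLE hD
  have hu : ∀ x : Rˣ, φ x ≠ 0 := fun x => (x.isUnit.map φ).ne_zero
  let w : Fin 3 → L := fun i => (φ (t (fun _ => c i)))⁻¹
  refine no_mono (L := L) (fun u v i j => (if u = 0 then w i else 1) *
    (φ (a u v (c i) (c j)) * φ (W u v (c i) (c j)))) hN ?_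
  intro ι
  have key : ∀ σ ∈ (Finset.univ.filter
      (fun σ : Equiv.Perm (Fin N) => (∀ v, σ (σ v) = v) ∧ ∀ v, σ v ≠ v)),
      ((-1 : L) ^ (crs σ).card * ∏ v ∈ Finset.univ.filter (fun v : Fin N => v < σ v),
        ((if v = 0 then w (ι v) else 1) *
          (φ (a v (σ v) (c (ι v)) (c (ι (σ v)))) * φ (W v (σ v) (c (ι v)) (c (ι (σ v))))))) =
      w (ι 0) * φ (t (fun v => c (ι v))) *
        φ (∏ v ∈ Finset.univ.filter (fun v : Fin N => v < σ v),
          W v (σ v) (c (ι v)) (c (ι (σ v)))) := by
    intro σ hσ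
    rw [Finset.mem_filter] at hσ
    obtain ⟨-, h1, h2⟩ := hσ
    rw [Finset.prod_mul_distrib, Finset.prod_mul_distrib]
    have e1 : ∏ v ∈ Finset.univ.filter (fun v : Fin N => v < σ v),
        (if v = 0 then w (ι v) else 1) = w (ι 0) := by
      rw [Finset.prod_eq_single (0 : Fin N)]
      · simp
      · intro v _ hv
        rw [if_neg hv]
      · intro h
        exfalso
        apply h
        rw [Finset.mem_filter]
        exact ⟨Finset.mem_univ _, Fin.pos_iff_ne_zero.2 (h2 0)⟩
    rw [e1]
    by_cases h0 : (∏ v ∈ Finset.univ.filter (fun v : Fin N => v < σ v),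
        W v (σ v) (c (ι v)) (c (ι (σ v)))) = 0
    · rw [h0, ← map_prod φ (fun v => W v (σ v) (c (ι v)) (c (ι (σ v)))), h0, map_zero]
      ring
    · have h3 := congrArg φ (hP (fun v => c (ι v)) σ h1 h2 h0)
      rw [map_mul, map_pow, map_neg, map_one] at h3
      rw [← h3, map_prod, map_prod]
      simp only [crs]
      ring
  rw [Finset.sum_congr rfl key, ← Finset.mul_sum, ← map_sum, hW (fun v => c (ι v))]
  have h5 : (∀ u v, c (ι u) = c (ι v)) ↔ ∀ u v, ι u = ι v := by
    constructor
    · intro h u v
      exact Fin.castLE_injective hD (h u v)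
    · intro h u v
      rw [h u v]
  by_cases h : ∀ u v, ι u = ι v
  · rw [if_pos h, if_pos (h5.2 h), map_one, mul_one]
    have h6 : (fun v => c (ι v)) = fun _ => c (ι 0) := by
      ext1 v
      rw [h v 0]
    rw [h6]
    exact inv_mul_cancel₀ (hu _)
  · rw [if_neg h, if_neg (fun h' => h (h5.1 h')), map_zero, mul_zero]

end Pool.Agent.Results.MP_daaace_co.PfaffianSupport
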