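import Mathlib
import Pool.Agent.Helper35.KG.Final

set_option autoImplicit false

namespace Pool.Agent.Results.MP_daaace_co.TwoNotInvertible

open Pool.Agent.Helper35.KG

universe u

/-- Over a commutative ring in which `2` is not invertible there is no monochromatic quantum graph
with at least six vertices and at least three colours. -/
theorem result : ∀ (R : Type u) [CommRing R], ¬ IsUnit (2 : R) →
    ¬ ∃ N D : ℕ, Even N ∧ 6 ≤ N ∧ 3 ≤ D ∧
      ∃ W : Fin N → Fin N → Fin D → Fin D → R,
        ∀ ι : Fin N → Fin D,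
          (∑ σ ∈ (Finset.univ.filter
                (fun σ : Equiv.Perm (Fin N) => (∀ v, σ (σ v) = v) ∧ ∀ v, σ v ≠ v)),
              ∏ v ∈ Finset.univ.filter (fun v : Fin N => v < σ v),
                W v (σ v) (ι v) (ι (σ v)))
            = if (∀ u v, ι u = ι v) then (1 : R) else 0 := by
  intro R _ h2
  rintro ⟨N, D, -, hN, hD, W, hW⟩
  obtain ⟨M, hM, h2M⟩ := exists_max_ideal_of_mem_nonunits (a := (2 : R)) h2
  let K := R ⧸ M
  let _ : Field K := Ideal.Quotient.field M
  let L := AlgebraicClosure K
  let φ : R →+* L := (algebraMap K L).comp (Ideal.Quotient.mk M)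
  have h2L : (2 : L) = 0 := by
    have h3 : φ 2 = 0 := by
      change (algebraMap K L) (Ideal.Quotient.mk M 2) = 0
      rw [Ideal.Quotient.eq_zero_iff_mem.2 h2M, map_zero]
    rw [← h3, map_ofNat]
  refine no_mono (L := L) (fun u v i j => φ (W u v (Fin.castLE hD i) (Fin.castLE hD j))) hN h2L ?_
  intro ι
  have h4 := congrArg φ (hW (fun v => Fin.castLE hD (ι v)))
  rw [map_sum] at h4
  simp_rw [map_prod] at h4
  rw [h4]
  have h5 : (∀ u v, Fin.castLE hD (ι u) = Fin.castLE hD (ι v)) ↔ ∀ u v, ι u = ι v := by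
    constructor
    · intro h u v
      exact Fin.castLE_injective hD (h u v)
    · intro h u v
      rw [h u v]
  by_cases h : ∀ u v, ι u = ι v
  · rw [if_pos h, if_pos (h5.2 h), map_one]
  · rw [if_neg h, if_neg (fun h' => h (h5.1 h')), map_zero]

end Pool.Agent.Results.MP_daaace_co.TwoNotInvertible
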